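import Pool.Agent.H893R5.HO.PMg

/-!
ROOM HS (helper349): the cometric on `S³ × S³` in group form over an arbitrary commutative ring, and
the curvature polynomial `PPS` (= four times the curvature numerator).

Dictionary. `x, y` unit quaternions, `(L, M)` body momenta (`L = Im (x̄ p)`, `M = Im (ȳ q)`),
`g = x̄ y`, `R = Ad g`, `Wb = W`, `Ws = X^T W' X`, `Yq = N X` (`X = Ad x`), `u = v̄ x`, `μ = Im u`,
`c = Re g = ⟨x, y⟩`. The quadratic form of the cometric is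
`|L|² + |M|² + ⟨W(L+M), L+M⟩ + ⟨Ws(L+RM), L+RM⟩ + 2e (L×μ)·(M-RM) + 2f c L·(M-RM) + 2k L·(Yq L)`.
-/

set_option autoImplicit false

namespace HopfS

open HopfPP HopfG

variable {R : Type*} [CommRing R]

/-- quaternions, as pairs (real part, imaginary part) -/
abbrev Q4 (R : Type*) := R × (Fin 3 → R)

/-- product of quaternions -/
def qm (a b : Q4 R) : Q4 R :=
  (a.1 * b.1 - dt a.2 b.2, a.1 • b.2 + b.1 • a.2 + cx a.2 b.2)

/-- imaginary quaternion -/
def im (w : V R) : Q4 R := (0, w)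

/-- `a ↦ g a ḡ` -/
def ad (g : Q4 R) (a : V R) : V R :=
  (g.1 * g.1 - dt g.2 g.2) • a + (2 * dt g.2 a) • g.2 + (2 * g.1) • cx g.2 a

/-- `a ↦ ḡ a g` -/
def adT (g : Q4 R) (a : V R) : V R :=
  (g.1 * g.1 - dt g.2 g.2) • a + (2 * dt g.2 a) • g.2 - (2 * g.1) • cx g.2 a

/-- transposed matrix times vector -/
def mvT (M : Fin 3 → V R) (a : V R) : V R :=
  ![M 0 0 * a 0 + M 1 0 * a 1 + M 2 0 * a 2, M 0 1 * a 0 + M 1 1 * a 1 + M 2 1 * a 2,
    M 0 2 * a 0 + M 1 2 * a 1 + M 2 2 * a 2]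

/-- the data of the cometric at a point -/
structure Dat (R : Type*) where
  /-- body matrix -/
  Wb : Fin 3 → V R
  /-- space matrix, in the body frame of `x` -/
  Ws : Fin 3 → V R
  /-- quadratic term -/
  Yq : Fin 3 → V R
  /-- `v̄ x` -/
  u : Q4 R
  /-- `x̄ y` -/
  g : Q4 R
  /-- coefficient of the twist -/
  e : R
  /-- coefficient of the invariant term -/
  f : R
  /-- coefficient of the quadratic term -/
  k : R

variable (D : Dat R)

/-- derivative of `g` along `w` -/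
def gD (w : V6 R) : Q4 R := qm D.g (im w.2) - qm (im w.1) D.g

/-- second derivative of `g` (derivative along `w` of the derivative along `x`) -/
def gDD (w x : V6 R) : Q4 R := qm (gD D w) (im x.2) - qm (im x.1) (gD D w)

/-- derivative of `u` along `w` -/
def uD (w : V6 R) : Q4 R := qm D.u (im w.1)

/-- second derivative of `u` -/
def uDD (w x : V6 R) : Q4 R := qm (uD D w) (im x.1)

/-- `R = Ad g` -/
def R0 (a : V R) : V R := ad D.g a

/-- transpose of `R` -/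
def T0 (a : V R) : V R := adT D.g a

/-- derivative of `R` -/
def R1 (w : V6 R) (a : V R) : V R := (2 : R) • (R0 D (cx w.2 a) - cx w.1 (R0 D a))

/-- second derivative of `R` -/
def R2 (w x : V6 R) (a : V R) : V R := (2 : R) • (R1 D w (cx x.2 a) - cx x.1 (R1 D w a))

/-- derivative of the transpose of `R` -/
def T1 (w : V6 R) (a : V R) : V R := (2 : R) • (T0 D (cx w.1 a) - cx w.2 (T0 D a))

/-- second derivative of the transpose of `R` -/
def T2 (w x : V6 R) (a : V R) : V R := (2 : R) • (T1 D w (cx x.1 a) - cx x.2 (T1 D w a))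

/-- derivative of `Ws` -/
def V1 (w : V6 R) (a : V R) : V R := (2 : R) • (mv D.Ws (cx w.1 a) - cx w.1 (mv D.Ws a))

/-- second derivative of `Ws` -/
def V2 (w x : V6 R) (a : V R) : V R := (2 : R) • (V1 D w (cx x.1 a) - cx x.1 (V1 D w a))

/-- the quadratic term -/
def Y0 (a : V R) : V R := mv D.Yq a + mvT D.Yq a

/-- derivative of the quadratic term -/
def Y1 (w : V6 R) (a : V R) : V R := (2 : R) • (mv D.Yq (cx w.1 a) - cx w.1 (mvT D.Yq a))

/-- second derivative of the quadratic term -/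
def Y2 (w x : V6 R) (a : V R) : V R :=
  (4 : R) • (mv D.Yq (cx w.1 (cx x.1 a)) + cx x.1 (cx w.1 (mvT D.Yq a)))

/-- the cometric -/
def K0 (a : V6 R) : V6 R :=
  (a.1 + mv D.Wb (a.1 + a.2) + mv D.Ws (a.1 + R0 D a.2) + D.e • cx D.u.2 (a.2 - R0 D a.2) +
      (D.f * D.g.1) • (a.2 - R0 D a.2) + D.k • Y0 D a.1,
    a.2 + mv D.Wb (a.1 + a.2) + T0 D (mv D.Ws (a.1 + R0 D a.2)) +
      D.e • (cx a.1 D.u.2 - T0 D (cx a.1 D.u.2)) + (D.f * D.g.1) • (a.1 - T0 D a.1))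

/-- its derivative along `w` -/
def K1 (w a : V6 R) : V6 R :=
  (V1 D w (a.1 + R0 D a.2) + mv D.Ws (R1 D w a.2) +
      D.e • (cx (uD D w).2 (a.2 - R0 D a.2) - cx D.u.2 (R1 D w a.2)) +
      D.f • ((gD D w).1 • (a.2 - R0 D a.2) - D.g.1 • R1 D w a.2) + D.k • Y1 D w a.1,
    T1 D w (mv D.Ws (a.1 + R0 D a.2)) + T0 D (V1 D w (a.1 + R0 D a.2) + mv D.Ws (R1 D w a.2)) +
      D.e • (cx a.1 (uD D w).2 - T1 D w (cx a.1 D.u.2) - T0 D (cx a.1 (uD D w).2)) +
      D.f • ((gD D w).1 • (a.1 - T0 D a.1) - D.g.1 • T1 D w a.1))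

/-- its second derivative (derivative along `w` of the derivative along `x`) -/
def K2 (w x a : V6 R) : V6 R :=
  (V2 D w x (a.1 + R0 D a.2) + V1 D w (R1 D x a.2) + V1 D x (R1 D w a.2) +
      mv D.Ws (R2 D w x a.2) +
      D.e • (cx (uDD D w x).2 (a.2 - R0 D a.2) - cx (uD D w).2 (R1 D x a.2) -
        cx (uD D x).2 (R1 D w a.2) - cx D.u.2 (R2 D w x a.2)) +
      D.f • ((gDD D w x).1 • (a.2 - R0 D a.2) - (gD D w).1 • R1 D x a.2 -
        (gD D x).1 • R1 D w a.2 - D.g.1 • R2 D w x a.2) + D.k • Y2 D w x a.1,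
    T2 D w x (mv D.Ws (a.1 + R0 D a.2)) +
      T1 D w (V1 D x (a.1 + R0 D a.2) + mv D.Ws (R1 D x a.2)) +
      T1 D x (V1 D w (a.1 + R0 D a.2) + mv D.Ws (R1 D w a.2)) +
      T0 D (V2 D w x (a.1 + R0 D a.2) + V1 D w (R1 D x a.2) + V1 D x (R1 D w a.2) +
        mv D.Ws (R2 D w x a.2)) +
      D.e • (cx a.1 (uDD D w x).2 - (T2 D w x (cx a.1 D.u.2) + T1 D w (cx a.1 (uD D x).2) +
        T1 D x (cx a.1 (uD D w).2) + T0 D (cx a.1 (uDD D w x).2))) +
      D.f • ((gDD D w x).1 • (a.1 - T0 D a.1) - ((gD D w).1 • T1 D x a.1 +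
        (gD D x).1 • T1 D w a.1 + D.g.1 • T2 D w x a.1)))

/-- the body part of the cometric -/
def KW (a : V6 R) : V6 R := (mv D.Wb (a.1 + a.2), mv D.Wb (a.1 + a.2))

/-- the space part of the cometric -/
def KV (a : V6 R) : V6 R := (mv D.Ws (a.1 + R0 D a.2), T0 D (mv D.Ws (a.1 + R0 D a.2)))

/-- the shift of `Γ` (then `Γ = 0` at the zero planes, for all `Wb`, `Ws`) -/
def Phi (α β : V6 R) : V6 R :=
  (cx6 α (KW D β) - cx6 β (KW D α)) - (cx6 α (KV D β) - cx6 β (KV D α))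

/-- The curvature polynomial. -/
def PPS (α β Γ : V6 R) : R := PM4 (K0 D) (K1 D) (K2 D) α β (Γ + Phi D α β)

section map

variable {S : Type*} [CommRing S] (φ : R →+* S)

/-- image of a quaternion -/
def mapQ (a : Q4 R) : Q4 S := (φ a.1, mapV φ a.2)

/-- image of the data -/
def mapDat : Dat S :=
  ⟨fun i => mapV φ (D.Wb i), fun i => mapV φ (D.Ws i), fun i => mapV φ (D.Yq i), mapQ φ D.u,
    mapQ φ D.g, φ D.e, φ D.f, φ D.k⟩

theorem mapQ_sub (a b : Q4 R) : mapQ φ (a - b) = mapQ φ a - mapQ φ b := by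
  simp [mapQ, mapV_sub]

theorem mapQ_qm (a b : Q4 R) : mapQ φ (qm a b) = qm (mapQ φ a) (mapQ φ b) := by
  simp [mapQ, qm, mapV_add, mapV_smul, mapV_cx, map_dt]

theorem mapQ_im (w : V R) : mapQ φ (im w) = im (mapV φ w) := by
  simp [mapQ, im]

theorem mapV_ad (g : Q4 R) (a : V R) : mapV φ (ad g a) = ad (mapQ φ g) (mapV φ a) := by
  simp [mapQ, ad, mapV_add, mapV_smul, mapV_cx, map_dt, map_ofNat]

theorem mapV_adT (g : Q4 R) (a : V R) : mapV φ (adT g a) = adT (mapQ φ g) (mapV φ a) := by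
  simp [mapQ, adT, mapV_add, mapV_sub, mapV_smul, mapV_cx, map_dt, map_ofNat]

theorem mapV_mvT (M : Fin 3 → V R) (a : V R) :
    mapV φ (mvT M a) = mvT (fun i => mapV φ (M i)) (mapV φ a) := by
  rw [mvT, mapV_vec]
  simp [mvT, mapV]

theorem map_gD (w : V6 R) : mapQ φ (gD D w) = gD (mapDat D φ) (map6 φ w) := by
  simp only [gD, mapQ_sub, mapQ_qm, mapQ_im, mapDat, map6]

theorem map_gDD (w x : V6 R) :
    mapQ φ (gDD D w x) = gDD (mapDat D φ) (map6 φ w) (map6 φ x) := by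
  simp only [gDD, mapQ_sub, mapQ_qm, mapQ_im, map_gD, map6]

theorem map_uD (w : V6 R) : mapQ φ (uD D w) = uD (mapDat D φ) (map6 φ w) := by
  simp only [uD, mapQ_qm, mapQ_im, mapDat, map6]

theorem map_uDD (w x : V6 R) :
    mapQ φ (uDD D w x) = uDD (mapDat D φ) (map6 φ w) (map6 φ x) := by
  simp only [uDD, mapQ_qm, mapQ_im, map_uD, map6]

theorem map_R0 (a : V R) : mapV φ (R0 D a) = R0 (mapDat D φ) (mapV φ a) := mapV_ad φ _ _

theorem map_T0 (a : V R) : mapV φ (T0 D a) = T0 (mapDat D φ) (mapV φ a) := mapV_adT φ _ _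

theorem map_R1 (w : V6 R) (a : V R) :
    mapV φ (R1 D w a) = R1 (mapDat D φ) (map6 φ w) (mapV φ a) := by
  simp only [R1, mapV_smul, mapV_sub, mapV_cx, map_R0, map_ofNat, map6]

theorem map_R2 (w x : V6 R) (a : V R) :
    mapV φ (R2 D w x a) = R2 (mapDat D φ) (map6 φ w) (map6 φ x) (mapV φ a) := by
  simp only [R2, mapV_smul, mapV_sub, mapV_cx, map_R1, map_ofNat, map6]

theorem map_T1 (w : V6 R) (a : V R) :
    mapV φ (T1 D w a) = T1 (mapDat D φ) (map6 φ w) (mapV φ a) := by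
  simp only [T1, mapV_smul, mapV_sub, mapV_cx, map_T0, map_ofNat, map6]

theorem map_T2 (w x : V6 R) (a : V R) :
    mapV φ (T2 D w x a) = T2 (mapDat D φ) (map6 φ w) (map6 φ x) (mapV φ a) := by
  simp only [T2, mapV_smul, mapV_sub, mapV_cx, map_T1, map_ofNat, map6]

theorem map_Ws (a : V R) : mapV φ (mv D.Ws a) = mv (mapDat D φ).Ws (mapV φ a) := mapV_mv φ _ _

theorem map_Wb (a : V R) : mapV φ (mv D.Wb a) = mv (mapDat D φ).Wb (mapV φ a) := mapV_mv φ _ _

theorem map_Yq (a : V R) : mapV φ (mv D.Yq a) = mv (mapDat D φ).Yq (mapV φ a) := mapV_mv φ _ _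

theorem map_YqT (a : V R) : mapV φ (mvT D.Yq a) = mvT (mapDat D φ).Yq (mapV φ a) :=
  mapV_mvT φ _ _

theorem map_V1 (w : V6 R) (a : V R) :
    mapV φ (V1 D w a) = V1 (mapDat D φ) (map6 φ w) (mapV φ a) := by
  simp only [V1, mapV_smul, mapV_sub, mapV_cx, map_Ws, map_ofNat, map6]

theorem map_V2 (w x : V6 R) (a : V R) :
    mapV φ (V2 D w x a) = V2 (mapDat D φ) (map6 φ w) (map6 φ x) (mapV φ a) := by
  simp only [V2, mapV_smul, mapV_sub, mapV_cx, map_V1, map_ofNat, map6]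

theorem map_Y0 (a : V R) : mapV φ (Y0 D a) = Y0 (mapDat D φ) (mapV φ a) := by
  simp only [Y0, mapV_add, map_Yq, map_YqT]

theorem map_Y1 (w : V6 R) (a : V R) :
    mapV φ (Y1 D w a) = Y1 (mapDat D φ) (map6 φ w) (mapV φ a) := by
  simp only [Y1, mapV_smul, mapV_sub, mapV_cx, map_Yq, map_YqT, map_ofNat, map6]

theorem map_Y2 (w x : V6 R) (a : V R) :
    mapV φ (Y2 D w x a) = Y2 (mapDat D φ) (map6 φ w) (map6 φ x) (mapV φ a) := by
  simp only [Y2, mapV_smul, mapV_add, mapV_cx, map_Yq, map_YqT, map_ofNat, map6]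

theorem mapQ_fst (a : Q4 R) : φ a.1 = (mapQ φ a).1 := rfl

theorem mapQ_snd (a : Q4 R) : mapV φ a.2 = (mapQ φ a).2 := rfl

theorem map6_fst (a : V6 R) : mapV φ a.1 = (map6 φ a).1 := rfl

theorem map6_snd (a : V6 R) : mapV φ a.2 = (map6 φ a).2 := rfl

theorem mapDat_u : mapQ φ D.u = (mapDat D φ).u := rfl

theorem mapDat_g : mapQ φ D.g = (mapDat D φ).g := rfl

theorem mapDat_e : φ D.e = (mapDat D φ).e := rfl

theorem mapDat_f : φ D.f = (mapDat D φ).f := rfl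

theorem mapDat_k : φ D.k = (mapDat D φ).k := rfl

theorem map6_mk (a b : V R) : map6 φ (a, b) = (mapV φ a, mapV φ b) := rfl

theorem map_K0 (a : V6 R) : map6 φ (K0 D a) = K0 (mapDat D φ) (map6 φ a) := by
  simp only [K0, map6_mk, mapV_add, mapV_sub, mapV_smul, mapV_cx, map_mul, map_R0, map_T0, map_Ws,
    map_Wb, map_Y0, mapQ_fst, mapQ_snd, mapDat_u, mapDat_g, mapDat_e, mapDat_f, mapDat_k,
    map6_fst, map6_snd]

theorem map_K1 (w a : V6 R) :
    map6 φ (K1 D w a) = K1 (mapDat D φ) (map6 φ w) (map6 φ a) := by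
  simp only [K1, map6_mk, mapV_add, mapV_sub, mapV_smul, mapV_cx, map_R0, map_T0, map_Ws,
    map_R1, map_T1, map_V1, map_Y1, mapQ_fst, mapQ_snd, mapDat_u, mapDat_g, mapDat_e,
    mapDat_f, mapDat_k, map6_fst, map6_snd, map_gD, map_uD]

theorem map_K2 (w x a : V6 R) :
    map6 φ (K2 D w x a) = K2 (mapDat D φ) (map6 φ w) (map6 φ x) (map6 φ a) := by
  simp only [K2, map6_mk, mapV_add, mapV_sub, mapV_smul, mapV_cx, map_R0, map_T0, map_Ws,
    map_R1, map_T1, map_V1, map_R2, map_T2, map_V2, map_Y2, mapQ_fst, mapQ_snd, mapDat_u,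
    mapDat_g, mapDat_e, mapDat_f, mapDat_k, map6_fst, map6_snd, map_gD, map_uD, map_gDD, map_uDD]

theorem map_KW (a : V6 R) : map6 φ (KW D a) = KW (mapDat D φ) (map6 φ a) := by
  simp only [KW, map6_mk, mapV_add, map_Wb, map6_fst, map6_snd]

theorem map_KV (a : V6 R) : map6 φ (KV D a) = KV (mapDat D φ) (map6 φ a) := by
  simp only [KV, map6_mk, mapV_add, map_Ws, map_R0, map_T0, map6_fst, map6_snd]

theorem map_Phi (α β : V6 R) :
    map6 φ (Phi D α β) = Phi (mapDat D φ) (map6 φ α) (map6 φ β) := by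
  simp only [Phi, map6_sub, map6_cx6, map_KW, map_KV]

/-- naturality of the curvature polynomial -/
theorem map_PPS (α β Γ : V6 R) :
    φ (PPS D α β Γ) = PPS (mapDat D φ) (map6 φ α) (map6 φ β) (map6 φ Γ) := by
  rw [PPS, map_PM4 φ (map_K0 D φ) (map_K1 D φ) (map_K2 D φ), map6_add, map_Phi, PPS]

end map

end HopfS
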